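import Mathlib
import Pool.Agent.H78.DynDegDefs
import Pool.Agent.H78.DynDeg

set_option autoImplicit false

namespace Pool.Agent.Results.MP_dcd72d_ag.NoGap

open Pool.Agent.H78.DynDeg

/-- No uniform gap for the second Lyapunov exponent lambda2/lambda1 of dominant rational
self-maps of the projective plane, over any field, on either side of 1. -/
theorem result (k : Type) [Field k] (μ : ℝ) (hμ : 1 < μ) :
    (∃ (φ : FF k →ₐ[k] FF k) (l1 l2 : ℝ),
      GrowthRate (fun n => deg1 (φ ^ n)) l1 ∧ GrowthRate (fun n => deg2 (φ ^ n)) l2 ∧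
      l2 / l1 ∈ Set.Ioo μ⁻¹ 1) ∧
    (∃ (φ : FF k →ₐ[k] FF k) (l1 l2 : ℝ),
      GrowthRate (fun n => deg1 (φ ^ n)) l1 ∧ GrowthRate (fun n => deg2 (φ ^ n)) l2 ∧
      l2 / l1 ∈ Set.Ioo 1 μ) := by
  obtain ⟨N, hN⟩ := exists_nat_gt (1 / (μ - 1))
  have h1 : 0 < μ - 1 := by linarith
  have h2 : 1 < N * (μ - 1) := by rwa [div_lt_iff₀ h1] at hN
  have h3 : (0 : ℝ) ≤ N := by positivity
  constructor
  · obtain ⟨φ, a, b⟩ := exists_map k (N + 3) (N + 2) (by omega) (by omega) (by omega) (by nlinarith)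
    refine ⟨φ, _, _, a, b, ?_, ?_⟩
    · push_cast
      rw [inv_eq_one_div, div_lt_div_iff₀ (by linarith) (by positivity)]
      nlinarith
    · push_cast
      rw [div_lt_one (by positivity)]
      linarith
  · obtain ⟨φ, a, b⟩ := exists_map k (N + 2) (N + 3) (by omega) (by omega) (by omega) (by nlinarith)
    refine ⟨φ, _, _, a, b, ?_, ?_⟩
    · push_cast
      rw [one_lt_div (by positivity)]
      linarith
    · push_cast
      rw [div_lt_iff₀ (by positivity)]
      nlinarith

end Pool.Agent.Results.MP_dcd72d_ag.NoGap
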